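import Pool.Agent.W186.AI.Spec

set_option autoImplicit false

/-! Task AI-LAM: the size of `La`. -/

namespace Pool.Agent.W605.AI.LAM

open Complex Filter Topology Metric Set
open scoped Real
open Pool.Agent.W186.AI

theorem re_half (a : ℂ) : (1 / 2 + a).re = 1 / 2 + a.re := by
  rw [add_re]
  norm_num

theorem low {C : ℝ} {s : ℂ} (h : ‖deriv g s - log s / 2‖ ≤ C) (b : ℝ) (hb : 0 < b)
    (hbs : b ≤ ‖s‖) : Real.log b / 2 - C ≤ ‖deriv g s‖ := by
  have h1 : ‖log s / 2‖ - ‖deriv g s‖ ≤ C := by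
    refine le_trans ?_ h
    rw [norm_sub_rev]
    exact norm_sub_norm_le _ _
  have h2 : ‖log s / 2‖ = ‖log s‖ / 2 := by rw [norm_div]; norm_num
  have h3 : Real.log b ≤ ‖log s‖ := by
    have h4 : Real.log b ≤ Real.log ‖s‖ := Real.log_le_log hb hbs
    have h5 : (log s).re = Real.log ‖s‖ := Complex.log_re s
    have h6 := Complex.re_le_norm (log s)
    linarith
  linarith

theorem upp {C : ℝ} {s : ℂ} (h : ‖deriv g s - log s / 2‖ ≤ C) (h1 : 1 ≤ ‖s‖) :
    ‖deriv g s‖ ≤ (Real.log ‖s‖ + π) / 2 + C := by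
  have h2 : ‖log s / 2‖ = ‖log s‖ / 2 := by rw [norm_div]; norm_num
  have h3 : ‖log s‖ ≤ Real.log ‖s‖ + π := by
    refine (Complex.norm_le_abs_re_add_abs_im _).trans ?_
    rw [Complex.log_re, Complex.log_im, abs_of_nonneg (Real.log_nonneg h1)]
    have := Complex.abs_arg_le_pi s
    linarith
  have h4 : ‖deriv g s‖ ≤ ‖deriv g s - log s / 2‖ + ‖log s / 2‖ := by
    have := norm_add_le (deriv g s - log s / 2) (log s / 2)
    rwa [sub_add_cancel] at this
  linarith

theorem main (hg : S_GAM) (h1 : S_GD1) : S_LAM := by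
  obtain ⟨hd, _, _⟩ := hg
  obtain ⟨C, hC⟩ := h1
  have hlow : ∀ (a : ℂ) (b : ℝ), 10 ≤ a.re → 0 < b → b ≤ ‖1 / 2 + a‖ →
      Real.log b / 2 - C ≤ ‖La a‖ := by
    intro a b ha hb hb'
    have hr := re_half a
    exact low (hC _ (by rw [hr]; linarith) (Or.inl (by rw [hr]; linarith))) b hb hb'
  refine ⟨?_, ?_, ?_, ?_⟩
  · have h2 : IsOpen {s : ℂ | 1 < s.re} := isOpen_lt continuous_const continuous_re
    have h3 := hd.deriv h2
    intro a ha
    have ha' : (1 : ℝ) < (1 / 2 + a).re := by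
      rw [re_half]
      have : 1 / 2 < a.re := ha
      linarith
    have h4 : DifferentiableAt ℂ (deriv g) (1 / 2 + a) :=
      (h3 _ ha').differentiableAt (h2.mem_nhds ha')
    have h5 : DifferentiableAt ℂ (fun a : ℂ => 1 / 2 + a) a := by fun_prop
    exact (DifferentiableAt.comp a h4 h5).differentiableWithinAt
  · intro K
    refine ⟨max 10 (Real.exp (2 * (K + C))), le_max_left _ _, fun a ha => ?_⟩
    have h2 : 10 ≤ a.re := (le_max_left _ _).trans ha
    have h3 : Real.exp (2 * (K + C)) ≤ a.re := (le_max_right _ _).trans ha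
    have h4 := hlow a (Real.exp (2 * (K + C))) h2 (Real.exp_pos _) (by
      have h5 := Complex.re_le_norm (1 / 2 + a)
      rw [re_half] at h5
      linarith)
    rw [Real.log_exp] at h4
    linarith
  · intro x hx
    have h2 : Tendsto (fun Y : ℝ => Real.log Y / 2 - C) atTop atTop :=
      tendsto_atTop_add_const_right _ _ (Real.tendsto_log_atTop.atTop_div_const (by norm_num))
    refine tendsto_atTop_mono' _ ?_ h2
    filter_upwards [eventually_gt_atTop (0 : ℝ)] with Y hY
    refine hlow _ Y ?_ hY ?_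
    · simp
      exact hx
    · have h5 := Complex.abs_im_le_norm (1 / 2 + ((x : ℂ) + I * (Y : ℂ)))
      have h6 : (1 / 2 + ((x : ℂ) + I * (Y : ℂ))).im = Y := by
        simp
      rw [h6, abs_of_pos hY] at h5
      exact h5
  · intro x hx k
    have h2 : Tendsto (fun Y : ℝ => Real.log Y ^ k / Y) atTop (𝓝 0) := by
      have := (Real.isLittleO_pow_log_id_atTop (n := k)).tendsto_div_nhds_zero
      simpa using this
    refine squeeze_zero' ?_ ?_ h2
    · filter_upwards [eventually_gt_atTop (0 : ℝ)] with Y hY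
      positivity
    · have h3 : ∀ᶠ Y : ℝ in atTop, Real.log 2 + π + 2 * C ≤ Real.log Y :=
        Real.tendsto_log_atTop.eventually_ge_atTop _
      filter_upwards [h3, eventually_gt_atTop (0 : ℝ), eventually_ge_atTop (1 / 2 + x)]
        with Y h4 hY h5
      have hn1 : ‖1 / 2 + ((x : ℂ) + I * (Y : ℂ))‖ ≤ 2 * Y := by
        have e : (1 / 2 + ((x : ℂ) + I * (Y : ℂ))) = ((1 / 2 + x : ℝ) : ℂ) + I * (Y : ℂ) := by
          push_cast; ring
        rw [e]
        refine (norm_add_le _ _).trans ?_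
        rw [norm_mul, Complex.norm_I, one_mul, Complex.norm_real, Complex.norm_real,
          Real.norm_of_nonneg (by linarith), Real.norm_of_nonneg hY.le]
        linarith
      have hr : (1 / 2 + ((x : ℂ) + I * (Y : ℂ))).re = 1 / 2 + x := by
        rw [re_half]
        simp
      have hn2 : 1 ≤ ‖1 / 2 + ((x : ℂ) + I * (Y : ℂ))‖ := by
        have h6 := Complex.re_le_norm (1 / 2 + ((x : ℂ) + I * (Y : ℂ)))
        rw [hr] at h6
        linarith
      have h6 : ‖La ((x : ℂ) + I * (Y : ℂ))‖ ≤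
          (Real.log ‖1 / 2 + ((x : ℂ) + I * (Y : ℂ))‖ + π) / 2 + C :=
        upp (hC _ (by rw [hr]; linarith) (Or.inl (by rw [hr]; linarith))) hn2
      have h7 : Real.log ‖1 / 2 + ((x : ℂ) + I * (Y : ℂ))‖ ≤ Real.log 2 + Real.log Y := by
        rw [← Real.log_mul (by norm_num) hY.ne']
        exact Real.log_le_log (by linarith) hn1
      have h8 : ‖La ((x : ℂ) + I * (Y : ℂ))‖ ≤ Real.log Y := by linarith
      gcongr

end Pool.Agent.W605.AI.LAM
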